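import Pool.Agent.Helper13.PS.St

/-!
# Project PS (MP_77ff3d_nt), module QB: finitely many stages of the law
-/

set_option autoImplicit false

noncomputable section

namespace Pool.Agent.Helper92.PS

open Finset Pool.Agent.Helper76.ND Pool.Agent.Helper13.PS

theorem hQB (hPI : StPI) (hQC : StQC) (hQA : StQA) : StQB := by
  intro σ m hσ hσ1
  obtain ⟨t0, ht0⟩ := hQA σ hσ hσ1
  induction m with
  | zero =>
    refine ⟨0, fun t N _ hN hNt _ => ⟨0, ?_, ?_⟩⟩
    · intro k hk
      have hk0 : k = 0 := Nat.le_zero.1 hk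
      subst hk0
      refine ⟨?_, ?_⟩
      · simp only [Function.iterate_zero, id_eq, Nat.cast_zero, mul_zero, sub_zero, sub_self, abs_zero]
        positivity
      · have h1 : hd (wd 0 N) = 0 := rfl
        rw [h1]
        simp only [Nat.cast_zero, zero_div, sub_zero, abs_zero]
        positivity
    · simp only [Function.iterate_zero, id_eq, pow_zero, one_mul]
      have h1 : (N : ℝ) ≤ 2 ^ t := by exact_mod_cast hNt
      have h2 : (0 : ℝ) < N := by exact_mod_cast hN
      have h3 : Real.log N ≤ Real.log ((2 : ℝ) ^ t) := Real.log_le_log h2 h1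
      rw [Real.log_pow] at h3
      have h4 : Real.log 2 ≤ 1 := by
        have := Real.log_two_lt_d9
        linarith
      have h5 : (0 : ℝ) ≤ t := Nat.cast_nonneg t
      nlinarith
  | succ m ih =>
    obtain ⟨T, hT⟩ := ih
    refine ⟨max t0 (2 * T), ?_⟩
    intro t N ht hN hNt hX
    have hE : ¬ E σ t N := fun h => hX (Or.inl h)
    have hX1 : ¬ X σ m (nx t N) (S^[t] N) := fun h => hX (Or.inr h)
    obtain ⟨hlaw, hup, hlo⟩ := ht0 t N (le_trans (le_max_left _ _) ht) hN hNt hE
    have hPI1 := hPI t N hN hNt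
    rw [Finset.mem_Icc] at hPI1
    have hT1 : T ≤ nx t N := by
      have h1 : 2 * T ≤ t := le_trans (le_max_right _ _) ht
      have h2 : (2 : ℝ) * T ≤ t := by exact_mod_cast h1
      have h3 : (T : ℝ) ≤ nx t N := by linarith
      exact_mod_cast h3
    have hN1 : S^[t] N ≤ 2 ^ nx t N := hPI1.2.trans (Nat.le_pow_clog (by norm_num) _)
    obtain ⟨K1, hK1, hend⟩ := hT (nx t N) (S^[t] N) hT1 hPI1.1 hN1 hX1
    have hσt : 0 ≤ σ * t := by positivity
    have hσt1 : σ * nx t N ≤ 82 / 100 * (σ * t) := by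
      have := mul_le_mul_of_nonneg_left hup hσ.le
      linarith
    refine ⟨K1 + t, ?_, ?_⟩
    · intro k hk
      rcases Nat.lt_or_ge t k with hkt | hkt
      · obtain ⟨k1, rfl⟩ : ∃ k1, k = k1 + t := ⟨k - t, by omega⟩
        have hk1 : k1 ≤ K1 := by omega
        obtain ⟨a1, a2⟩ := hK1 k1 hk1
        obtain ⟨b1, b2⟩ := hlaw t le_rfl
        rw [Function.iterate_add_apply, (hQC k1 t N).2]
        rw [abs_le] at a1 a2 b1 b2 ⊢
        rw [abs_le]
        push_cast
        constructor <;> constructor <;> nlinarith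
      · obtain ⟨b1, b2⟩ := hlaw k hkt
        constructor <;> nlinarith
    · rw [Function.iterate_add_apply]
      refine hend.trans ?_
      have h1 : (0 : ℝ) ≤ (82 / 100) ^ m := by positivity
      have h2 := mul_le_mul_of_nonneg_left hup h1
      calc (82 / 100 : ℝ) ^ m * nx t N ≤ (82 / 100) ^ m * (82 / 100 * t) := h2
        _ = (82 / 100) ^ (m + 1) * t := by ring

end Pool.Agent.Helper92.PS
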